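import Pool.Agent.Helper15.FC.St3

set_option autoImplicit false

open Pool.Agent.Helper15.FC Polynomial

namespace Pool.Agent.Helper87.FC

private theorem markov {q Kc δ : ℝ} (hq : 2 ≤ q) {m n Q C1 : ℕ} (hKc : 0 ≤ Kc)
    (hQ : Q ≤ m) (hQ2 : m ≤ 2 * Q + 1) (hδ : δ * C1 ≤ 1 / 32)
    (hn : (n : ℝ) ≤ q ^ (δ * m)) :
    (Kc * q ^ ((m : ℝ) / 32)) ^ 2 * q ^ (2 * n + m - Q) * (n : ℝ) ^ C1 ≤
      Kc ^ 2 * q * q ^ ((3 / 4 : ℝ) * m) * (q ^ ((n : ℝ) - m / 16)) ^ 2 := by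
  have hq0 : 0 < q := by linarith
  have hq1 : 1 ≤ q := by linarith
  have hm0 : (0 : ℝ) ≤ m := Nat.cast_nonneg m
  have e1 : (Kc * q ^ ((m : ℝ) / 32)) ^ 2 = Kc ^ 2 * q ^ ((m : ℝ) / 16) := by
    rw [mul_pow, ← Real.rpow_natCast (q ^ ((m : ℝ) / 32)) 2, ← Real.rpow_mul hq0.le]
    congr 2
    push_cast
    ring
  have e2 : q ^ (2 * n + m - Q) = q ^ (2 * (n : ℝ) + m - Q) := by
    rw [← Real.rpow_natCast q (2 * n + m - Q), Nat.cast_sub (by omega)]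
    push_cast
    rfl
  have e3 : (n : ℝ) ^ C1 ≤ q ^ ((m : ℝ) / 16) := by
    calc (n : ℝ) ^ C1 ≤ (q ^ (δ * m)) ^ C1 := pow_le_pow_left₀ (Nat.cast_nonneg n) hn C1
      _ = q ^ (δ * m * C1) := by rw [← Real.rpow_natCast (q ^ (δ * m)) C1, ← Real.rpow_mul hq0.le]
      _ ≤ q ^ ((m : ℝ) / 16) := by
          refine Real.rpow_le_rpow_of_exponent_le hq1 ?_
          nlinarith
  have e4 : (q ^ ((n : ℝ) - m / 16)) ^ 2 = q ^ (2 * (n : ℝ) - m / 8) := by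
    rw [← Real.rpow_natCast (q ^ ((n : ℝ) - m / 16)) 2, ← Real.rpow_mul hq0.le]
    congr 1
    push_cast
    ring
  have hQr : (m : ℝ) ≤ 2 * Q + 1 := by exact_mod_cast hQ2
  rw [e1, e2, e4]
  have e5 : q ^ ((m : ℝ) / 16) * q ^ (2 * (n : ℝ) + m - Q) * q ^ ((m : ℝ) / 16) ≤
      q * q ^ ((3 / 4 : ℝ) * m) * q ^ (2 * (n : ℝ) - m / 8) := by
    have h1 : q * q ^ ((3 / 4 : ℝ) * m) * q ^ (2 * (n : ℝ) - m / 8) =
        q ^ (1 + (3 / 4 : ℝ) * m + (2 * (n : ℝ) - m / 8)) := by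
      rw [Real.rpow_add hq0, Real.rpow_add hq0, Real.rpow_one]
    rw [h1, ← Real.rpow_add hq0, ← Real.rpow_add hq0]
    refine Real.rpow_le_rpow_of_exponent_le hq1 ?_
    linarith
  have p1 : 0 ≤ q ^ ((m : ℝ) / 16) * q ^ (2 * (n : ℝ) + m - Q) := by positivity
  have h6 := mul_le_mul_of_nonneg_left e3 p1
  have h7 := mul_le_mul_of_nonneg_left (h6.trans e5) (sq_nonneg Kc)
  calc Kc ^ 2 * q ^ ((m : ℝ) / 16) * q ^ (2 * (n : ℝ) + m - Q) * (n : ℝ) ^ C1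
      = Kc ^ 2 * (q ^ ((m : ℝ) / 16) * q ^ (2 * (n : ℝ) + m - Q) * (n : ℝ) ^ C1) := by ring
    _ ≤ Kc ^ 2 * (q * q ^ ((3 / 4 : ℝ) * m) * q ^ (2 * (n : ℝ) - m / 8)) := h7
    _ = _ := by ring

private theorem npow {q δ : ℝ} (hq : 2 ≤ q) {m n s : ℕ} (hn1 : 1 ≤ n) (hδ : δ * s ≤ 1 / 32)
    (hn : (n : ℝ) ≤ q ^ (δ * m)) :
    ((n : ℝ) + 1) ^ s ≤ 2 ^ s * q ^ ((m : ℝ) / 32) := by
  have hq0 : 0 < q := by linarith
  have hq1 : 1 ≤ q := by linarith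
  have hm0 : (0 : ℝ) ≤ m := Nat.cast_nonneg m
  have hn1' : (1 : ℝ) ≤ n := by exact_mod_cast hn1
  calc ((n : ℝ) + 1) ^ s ≤ (2 * q ^ (δ * m)) ^ s := by
        refine pow_le_pow_left₀ (by positivity) ?_ s
        linarith
    _ = 2 ^ s * q ^ (δ * m * s) := by
        rw [mul_pow, ← Real.rpow_natCast (q ^ (δ * m)) s, ← Real.rpow_mul hq0.le]
    _ ≤ 2 ^ s * q ^ ((m : ℝ) / 32) := by
        refine mul_le_mul_of_nonneg_left ?_ (by positivity)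
        refine Real.rpow_le_rpow_of_exponent_le hq1 ?_
        nlinarith

private theorem mq {q Kc : ℝ} (hq : 2 ≤ q) {m n Q k l : ℕ} (hKc : 0 ≤ Kc)
    (hQ : 2 * Q ≤ m) (hmn : 4 * (k + l + 4) * m ≤ n) {N : ℝ}
    (hN : N ≤ 2 ^ (k + l) * q ^ ((m : ℝ) / 32)) :
    4 * (Kc * q ^ ((m : ℝ) / 32)) * Real.sqrt q ^ n * q ^ ((k + l + 3) * Q) * N ≤
      4 * Kc * 2 ^ (k + l) * q ^ ((n : ℝ) - m / 16) := by
  have hq0 : 0 < q := by linarith
  have hq1 : 1 ≤ q := by linarith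
  have hm0 : (0 : ℝ) ≤ m := Nat.cast_nonneg m
  have hk0 : (0 : ℝ) ≤ k := Nat.cast_nonneg k
  have hl0 : (0 : ℝ) ≤ l := Nat.cast_nonneg l
  have e1 : Real.sqrt q ^ n = q ^ ((n : ℝ) / 2) := by
    rw [Real.sqrt_eq_rpow, ← Real.rpow_natCast (q ^ ((1 : ℝ) / 2)) n, ← Real.rpow_mul hq0.le]
    congr 1
    ring
  have e2 : q ^ ((k + l + 3) * Q) = q ^ (((k : ℝ) + l + 3) * Q) := by
    rw [← Real.rpow_natCast q ((k + l + 3) * Q)]
    congr 1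
    push_cast
    ring
  rw [e1, e2]
  have hQr : 2 * (Q : ℝ) ≤ m := by exact_mod_cast hQ
  have hmnr : 4 * ((k : ℝ) + l + 4) * m ≤ n := by exact_mod_cast hmn
  have e5 : q ^ ((m : ℝ) / 32) * q ^ ((n : ℝ) / 2) * q ^ (((k : ℝ) + l + 3) * Q) *
      q ^ ((m : ℝ) / 32) ≤ q ^ ((n : ℝ) - m / 16) := by
    rw [← Real.rpow_add hq0, ← Real.rpow_add hq0, ← Real.rpow_add hq0]
    refine Real.rpow_le_rpow_of_exponent_le hq1 ?_
    have h1 : ((k : ℝ) + l + 3) * Q ≤ ((k : ℝ) + l + 3) * (m / 2) :=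
      mul_le_mul_of_nonneg_left (by linarith) (by linarith)
    have h2 : 0 ≤ ((k : ℝ) + l) * m := by positivity
    nlinarith
  have p0 : 0 ≤ 4 * (Kc * q ^ ((m : ℝ) / 32)) * q ^ ((n : ℝ) / 2) *
      q ^ (((k : ℝ) + l + 3) * Q) := by positivity
  calc 4 * (Kc * q ^ ((m : ℝ) / 32)) * q ^ ((n : ℝ) / 2) * q ^ (((k : ℝ) + l + 3) * Q) * N
      ≤ 4 * (Kc * q ^ ((m : ℝ) / 32)) * q ^ ((n : ℝ) / 2) * q ^ (((k : ℝ) + l + 3) * Q) *
          (2 ^ (k + l) * q ^ ((m : ℝ) / 32)) := mul_le_mul_of_nonneg_left hN p0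
    _ = 4 * Kc * 2 ^ (k + l) * (q ^ ((m : ℝ) / 32) * q ^ ((n : ℝ) / 2) *
          q ^ (((k : ℝ) + l + 3) * Q) * q ^ ((m : ℝ) / 32)) := by ring
    _ ≤ _ := mul_le_mul_of_nonneg_left e5 (by positivity)

private theorem tl {q C2 t : ℝ} (hq : 2 ≤ q) {m n Q s : ℕ} (hC2 : 0 ≤ C2) (ht : 0 ≤ t)
    (hQ2 : m ≤ 2 * Q + 1) {N : ℝ} (hN : N ≤ 2 ^ s * q ^ ((m : ℝ) / 32)) :
    q ^ n * (C2 * t * N * q ^ (-(1 / 2 : ℝ) * Q)) ≤
      C2 * 2 ^ s * q * (q ^ ((n : ℝ) - m / 8) * t) := by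
  have hq0 : 0 < q := by linarith
  have hq1 : 1 ≤ q := by linarith
  have hm0 : (0 : ℝ) ≤ m := Nat.cast_nonneg m
  have hQr : (m : ℝ) ≤ 2 * Q + 1 := by exact_mod_cast hQ2
  rw [← Real.rpow_natCast q n]
  have e5 : q ^ (n : ℝ) * q ^ ((m : ℝ) / 32) * q ^ (-(1 / 2 : ℝ) * Q) ≤
      q * q ^ ((n : ℝ) - m / 8) := by
    have h1 : q * q ^ ((n : ℝ) - m / 8) = q ^ (1 + ((n : ℝ) - m / 8)) := by
      rw [Real.rpow_add hq0, Real.rpow_one]
    rw [h1, ← Real.rpow_add hq0, ← Real.rpow_add hq0]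
    refine Real.rpow_le_rpow_of_exponent_le hq1 ?_
    linarith
  have p0 : 0 ≤ C2 * t * (q ^ (n : ℝ) * q ^ (-(1 / 2 : ℝ) * Q)) := by positivity
  calc q ^ (n : ℝ) * (C2 * t * N * q ^ (-(1 / 2 : ℝ) * Q))
      = C2 * t * (q ^ (n : ℝ) * q ^ (-(1 / 2 : ℝ) * Q)) * N := by ring
    _ ≤ C2 * t * (q ^ (n : ℝ) * q ^ (-(1 / 2 : ℝ) * Q)) * (2 ^ s * q ^ ((m : ℝ) / 32)) :=
        mul_le_mul_of_nonneg_left hN p0
    _ = C2 * 2 ^ s * t * (q ^ (n : ℝ) * q ^ ((m : ℝ) / 32) * q ^ (-(1 / 2 : ℝ) * Q)) := by ring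
    _ ≤ C2 * 2 ^ s * t * (q * q ^ ((n : ℝ) - m / 8)) :=
        mul_le_mul_of_nonneg_left e5 (by positivity)
    _ = _ := by ring

theorem hFN0 (hKAP : StKAP) (hL2M : StL2M) (hMQA : StMQA) (hTAL : StTAL) : StFN0 := by
  intro F _ _ k l P P' hk hl hP hP'
  classical
  obtain ⟨Ck, hCk1, hCk⟩ := hKAP F k (1 / 16) (by norm_num)
  obtain ⟨Cl, hCl1, hCl⟩ := hKAP F l (1 / 16) (by norm_num)
  obtain ⟨C1, hC1⟩ := hL2M F k l
  obtain ⟨C2, hC20, hC2⟩ := hTAL F k l P P' hk hl hP hP'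
  have hq2 : (2 : ℝ) ≤ qr F := by
    have : 1 < Fintype.card F := Fintype.one_lt_card
    exact_mod_cast this
  have hq0 : (0 : ℝ) < qr F := by linarith
  have hq1 : (1 : ℝ) ≤ qr F := by linarith
  obtain ⟨Kc, hKc⟩ : ∃ Kc : ℝ, Kc = Ck + Cl := ⟨_, rfl⟩
  have hKc0 : 0 ≤ Kc := by linarith
  obtain ⟨δ, hδ⟩ : ∃ δ : ℝ, δ = 1 / (32 * ((C1 : ℝ) + k + l + 1)) := ⟨_, rfl⟩
  have hden : (0 : ℝ) < (C1 : ℝ) + k + l + 1 := by positivity
  have hδ0 : 0 < δ := by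
    rw [hδ]
    positivity
  have hδS : δ * ((C1 : ℝ) + k + l + 1) = 1 / 32 := by
    rw [hδ]
    field_simp
  have hδC : δ * (C1 : ℝ) ≤ 1 / 32 := by
    rw [← hδS]
    refine mul_le_mul_of_nonneg_left ?_ hδ0.le
    have h1 : (0 : ℝ) ≤ k := Nat.cast_nonneg k
    have h2 : (0 : ℝ) ≤ l := Nat.cast_nonneg l
    linarith
  have hδkl : δ * ((k + l : ℕ) : ℝ) ≤ 1 / 32 := by
    rw [← hδS]
    refine mul_le_mul_of_nonneg_left ?_ hδ0.le
    have h1 : (0 : ℝ) ≤ C1 := Nat.cast_nonneg C1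
    push_cast
    linarith
  obtain ⟨C, hC⟩ : ∃ C : ℝ, C = 1 + 4 * Kc * 2 ^ (k + l) + C2 * 2 ^ (k + l) * qr F +
    Kc ^ 2 * qr F := ⟨_, rfl⟩
  have hA : 0 ≤ 4 * Kc * 2 ^ (k + l) := by positivity
  have hB : 0 ≤ C2 * 2 ^ (k + l) * qr F := by positivity
  have hD : 0 ≤ Kc ^ 2 * qr F := by positivity
  refine ⟨δ, C, hδ0, by linarith, ?_⟩
  intro n m H0 hmn hn hH0
  rcases Nat.eq_zero_or_pos m with hm | hm
  · subst hm
    refine ⟨Lw F 0, Finset.Subset.refl _, ?_, fun h h1 h2 => absurd h1 h2⟩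
    rw [card_Lw]
    have : (0 : ℝ) ≤ C - 1 := by linarith
    simp
    linarith
  obtain ⟨Q, hQd⟩ : ∃ Q : ℕ, Q = m / 2 := ⟨_, rfl⟩
  have hQm : 2 * Q ≤ m := by omega
  have hQm2 : m ≤ 2 * Q + 1 := by omega
  have hn24 : 24 * m ≤ n := by
    refine le_trans ?_ hmn
    refine Nat.mul_le_mul_right m ?_
    omega
  have hn1 : 1 ≤ n := by omega
  have hκ : ∀ r : F[X], r.Monic → r.natDegree ≤ Q →
      kap k r n ≤ Kc * qr F ^ ((m : ℝ) / 32) ∧ kap l r n ≤ Kc * qr F ^ ((m : ℝ) / 32) := by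
    intro r hr hrQ
    have h1 : qr F ^ ((1 / 16 : ℝ) * r.natDegree) ≤ qr F ^ ((m : ℝ) / 32) := by
      refine Real.rpow_le_rpow_of_exponent_le hq1 ?_
      have h2 : (r.natDegree : ℝ) ≤ Q := by exact_mod_cast hrQ
      have h3 : 2 * (Q : ℝ) ≤ m := by exact_mod_cast hQm
      linarith
    have h4 : 0 ≤ qr F ^ ((1 / 16 : ℝ) * r.natDegree) := Real.rpow_nonneg hq0.le _
    constructor
    · refine (hCk r n hr).trans ?_
      exact mul_le_mul (by linarith) h1 h4 hKc0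
    · refine (hCl r n hr).trans ?_
      exact mul_le_mul (by linarith) h1 h4 hKc0
  have hL2 := hC1 n m Q (Kc * qr F ^ ((m : ℝ) / 32)) H0 (by omega) hQm (by omega) hH0
    (fun r h1 h2 => (hκ r h1 h2).1)
  obtain ⟨b, hb⟩ : ∃ b : ℝ, b = qr F ^ ((n : ℝ) - m / 16) := ⟨_, rfl⟩
  have hb0 : 0 < b := by
    rw [hb]
    exact Real.rpow_pos_of_pos hq0 _
  obtain ⟨E, hE⟩ : ∃ E : Finset F[X], E = (Lw F m).filter (fun h =>
    b < ‖(Corr F k l n (X ^ m * H0 + h) : ℂ) - MQ Q k l n (X ^ m * H0 + h)‖) := ⟨_, rfl⟩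
  have hEs : E ⊆ Lw F m := by
    rw [hE]
    exact Finset.filter_subset _ _
  refine ⟨E, hEs, ?_, ?_⟩
  · have h1 : (E.card : ℝ) * b ^ 2 ≤ (Kc ^ 2 * qr F * qr F ^ ((3 / 4 : ℝ) * m)) * b ^ 2 := by
      calc (E.card : ℝ) * b ^ 2 = ∑ _h ∈ E, b ^ 2 := by rw [Finset.sum_const, nsmul_eq_mul]
        _ ≤ ∑ h ∈ E, ‖(Corr F k l n (X ^ m * H0 + h) : ℂ) - MQ Q k l n (X ^ m * H0 + h)‖ ^ 2 := by
            refine Finset.sum_le_sum fun h hh => ?_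
            rw [hE, Finset.mem_filter] at hh
            exact pow_le_pow_left₀ hb0.le hh.2.le 2
        _ ≤ ∑ h ∈ Lw F m,
              ‖(Corr F k l n (X ^ m * H0 + h) : ℂ) - MQ Q k l n (X ^ m * H0 + h)‖ ^ 2 :=
            Finset.sum_le_sum_of_subset_of_nonneg hEs (fun _ _ _ => sq_nonneg _)
        _ ≤ _ := hL2
        _ ≤ _ := by
            rw [hb]
            exact markov hq2 hKc0 (by omega) hQm2 hδC hn
    have h2 : (E.card : ℝ) ≤ Kc ^ 2 * qr F * qr F ^ ((3 / 4 : ℝ) * m) :=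
      le_of_mul_le_mul_right h1 (by positivity)
    refine h2.trans ?_
    refine mul_le_mul_of_nonneg_right ?_ (Real.rpow_nonneg hq0.le _)
    linarith
  · intro h hh hhE hne
    have hhb : ‖(Corr F k l n (X ^ m * H0 + h) : ℂ) - MQ Q k l n (X ^ m * H0 + h)‖ ≤ b := by
      by_contra hcon
      exact hhE (by rw [hE, Finset.mem_filter]; exact ⟨hh, not_le.1 hcon⟩)
    have hN := npow (q := qr F) hq2 (m := m) (n := n) (s := k + l) hn1 hδkl hn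
    have h1 := hMQA F k l n Q (Kc * qr F ^ ((m : ℝ) / 32)) (X ^ m * H0 + h) hκ
    have h2 := h1.trans (mq (q := qr F) hq2 hKc0 hQm hmn hN)
    obtain ⟨hsum, h3⟩ := hC2 (X ^ m * H0 + h) n Q hne
    have hMA : MA Q k l n (X ^ m * H0 + h) = qr F ^ n *
        ∑ i ∈ Finset.range (Q + 1), Ti P P' n (X ^ m * H0 + h) i := by
      unfold MA Ti
      have hqn : qr F ^ n ≠ 0 := pow_ne_zero _ hq0.ne'
      have h4 : ∀ i ∈ Finset.range (Q + 1), ∀ r ∈ Mn F i,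
          Ak k r n * Ak l r n * (cram r (X ^ m * H0 + h) : ℝ) =
            (qr F ^ n * qr F ^ n) * ((P r).eval (n : ℝ) * (P' r).eval (n : ℝ) *
              (cram r (X ^ m * H0 + h) : ℝ)) := by
        intro i hi r hr
        have hiQ : i ≤ Q := by
          have := Finset.mem_range.1 hi
          omega
        obtain ⟨hrm, hrd⟩ := mem_Mn.1 hr
        have hkl : (k + l) * i ≤ n := by
          refine le_trans ?_ hmn
          calc (k + l) * i ≤ (k + l) * m := Nat.mul_le_mul_left _ (by omega)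
            _ ≤ 4 * (k + l + 4) * m := Nat.mul_le_mul_right m (by omega)
        have hk' : k * r.natDegree ≤ n := by
          rw [hrd]
          refine le_trans (Nat.mul_le_mul_right i ?_) hkl
          omega
        have hl' : l * r.natDegree ≤ n := by
          rw [hrd]
          refine le_trans (Nat.mul_le_mul_right i ?_) hkl
          omega
        rw [(hP r hrm).2.1 n hk', (hP' r hrm).2.1 n hl']
        ring
      rw [Finset.sum_congr rfl (fun i hi => Finset.sum_congr rfl (h4 i hi))]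
      simp_rw [← Finset.mul_sum]
      rw [← mul_assoc, ← mul_assoc, inv_mul_cancel₀ hqn, one_mul]
    have ht0 : 0 ≤ tau (X ^ m * H0 + h) := by
      unfold tau
      exact Nat.cast_nonneg _
    have h5 : |MA Q k l n (X ^ m * H0 + h) - Mt P P' n (X ^ m * H0 + h)| ≤
        C2 * 2 ^ (k + l) * qr F * (qr F ^ ((n : ℝ) - m / 8) * tau (X ^ m * H0 + h)) := by
      rw [hMA]
      unfold Mt
      rw [← mul_sub, abs_mul, abs_of_nonneg (pow_nonneg hq0.le n)]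
      refine (mul_le_mul_of_nonneg_left h3 (pow_nonneg hq0.le n)).trans ?_
      exact tl (q := qr F) hq2 hC20.le ht0 hQm2 hN
    have h6 : |(Corr F k l n (X ^ m * H0 + h) : ℝ) - Mt P P' n (X ^ m * H0 + h)| =
        ‖((Corr F k l n (X ^ m * H0 + h) : ℂ) - MQ Q k l n (X ^ m * H0 + h)) +
          (MQ Q k l n (X ^ m * H0 + h) - (MA Q k l n (X ^ m * H0 + h) : ℂ)) +
          ((MA Q k l n (X ^ m * H0 + h) - Mt P P' n (X ^ m * H0 + h) : ℝ) : ℂ)‖ := by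
      rw [← Real.norm_eq_abs, ← Complex.norm_real]
      congr 1
      push_cast
      ring
    have h7 : ‖((MA Q k l n (X ^ m * H0 + h) - Mt P P' n (X ^ m * H0 + h) : ℝ) : ℂ)‖ ≤
        C2 * 2 ^ (k + l) * qr F * (qr F ^ ((n : ℝ) - m / 8) * tau (X ^ m * H0 + h)) := by
      rw [Complex.norm_real, Real.norm_eq_abs]
      exact h5
    rw [h6]
    refine (norm_add₃_le).trans ?_
    have hx : 0 ≤ qr F ^ ((n : ℝ) - m / 8) * tau (X ^ m * H0 + h) :=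
      mul_nonneg (Real.rpow_nonneg hq0.le _) ht0
    have h8 : C2 * 2 ^ (k + l) * qr F * (qr F ^ ((n : ℝ) - m / 8) * tau (X ^ m * H0 + h)) ≤
        C * (qr F ^ ((n : ℝ) - m / 8) * tau (X ^ m * H0 + h)) :=
      mul_le_mul_of_nonneg_right (by linarith) hx
    have h9 : (1 + 4 * Kc * 2 ^ (k + l)) * b ≤ C * b :=
      mul_le_mul_of_nonneg_right (by linarith) hb0.le
    rw [← hb] at h2
    rw [← hb]
    nlinarith [h2, h7, hhb, h8, h9]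

end Pool.Agent.Helper87.FC
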