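import Pool.Agent.Helper15.FC.St2

set_option autoImplicit false

open Pool.Agent.Helper15.FC Polynomial

namespace Pool.Agent.Helper87.FC

private theorem natDegree_Lp {F : Type} [Field F] [Fintype F] (Χ : F[X] → ℂ) (D : ℕ) :
    (Lp Χ D).natDegree ≤ D := by
  unfold Lp
  refine Polynomial.natDegree_sum_le_of_forall_le _ _ fun d hd => ?_
  exact (Polynomial.natDegree_C_mul_X_pow_le _ _).trans (Finset.mem_range.1 hd).le

theorem hDIS (hM2K : StM2K) (hCOE : StCOE) (hAVT : StAVT) (hCMH : StCMH) (hZS : StZS) :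
    StDIS := by
  intro F _ _ k
  obtain ⟨C, hC⟩ := hM2K F k
  refine ⟨C, ?_⟩
  intro N r χ hN hr hrN i
  have hq : (0 : ℝ) < qr F := by
    have : 0 < Fintype.card F := Fintype.card_pos
    exact_mod_cast this
  obtain ⟨D, hD⟩ : ∃ D : ℕ, D = r.natDegree + N := ⟨_, rfl⟩
  obtain ⟨ρ, hρ⟩ : ∃ ρ : ℝ, ρ = (Real.sqrt (qr F))⁻¹ := ⟨_, rfl⟩
  have hs : 0 < Real.sqrt (qr F) := Real.sqrt_pos.2 hq
  have hρ0 : 0 < ρ := by
    rw [hρ]
    exact inv_pos.2 hs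
  have hρ2 : qr F * ρ ^ 2 = 1 := by
    rw [hρ, inv_pow, Real.sq_sqrt hq.le]
    exact mul_inv_cancel₀ hq.ne'
  obtain ⟨z, hz, hG⟩ := hAVT (k * D + 1) ρ (by omega) hρ0
  have hT : (0 : ℝ) < ((k * D + 1 : ℕ) : ℝ) := by positivity
  -- the bound for one character
  have h1 : ∀ ξ ∈ XiNT F N,
      ‖∑ f ∈ Mn F i, (dk k f : ℂ) * Hk r N χ ξ f‖ ^ 2 * ρ ^ (2 * i) ≤
        (1 / ((k * D + 1 : ℕ) : ℝ)) * ∑ j ∈ Finset.range (k * D + 1),
          ‖(Lp (Hk r N χ ξ) (r.natDegree + N)).eval (z j)‖ ^ (2 * k) := by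
    intro ξ hξ
    have hnt : NTx ξ := by
      classical
      unfold XiNT at hξ
      rw [Finset.mem_filter] at hξ
      exact hξ.2
    have hz0 : ∀ d : ℕ, D ≤ d → Asum (Hk r N χ ξ) d = 0 := by
      intro d hd
      exact hZS F r N χ ξ hr (Or.inl hnt) d (hD ▸ hd)
    have hcoe := hCOE F (Hk r N χ ξ) D (hCMH F r N χ ξ hr) hz0 k i
    rw [hcoe]
    have hdeg : ((Lp (Hk r N χ ξ) D) ^ k).natDegree < k * D + 1 := by
      have h2 := Polynomial.natDegree_pow_le (p := Lp (Hk r N χ ξ) D) (n := k)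
      have h3 := Nat.mul_le_mul_left k (natDegree_Lp (Hk r N χ ξ) D)
      omega
    have h4 := hG _ hdeg i
    refine h4.trans (le_of_eq ?_)
    congr 1
    refine Finset.sum_congr rfl fun j _ => ?_
    rw [Polynomial.eval_pow, norm_pow, ← pow_mul, mul_comm k 2, hD]
  -- sum over the characters
  have h2 : (∑ ξ ∈ XiNT F N, ‖∑ f ∈ Mn F i, (dk k f : ℂ) * Hk r N χ ξ f‖ ^ 2) * ρ ^ (2 * i) ≤
      uN F N * (N : ℝ) ^ C := by
    rw [Finset.sum_mul]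
    refine (Finset.sum_le_sum h1).trans ?_
    rw [← Finset.mul_sum, Finset.sum_comm]
    have h3 : ∀ j ∈ Finset.range (k * D + 1),
        ∑ ξ ∈ XiNT F N, ‖(Lp (Hk r N χ ξ) (r.natDegree + N)).eval (z j)‖ ^ (2 * k) ≤
          uN F N * (N : ℝ) ^ C := by
      intro j _
      exact hC N r χ (z j) hN hr hrN (by rw [hz j]; exact hρ2)
    have h5 := Finset.sum_le_sum h3
    rw [Finset.sum_const, Finset.card_range, nsmul_eq_mul] at h5
    have h6 := mul_le_mul_of_nonneg_left h5 (one_div_pos.2 hT).le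
    refine h6.trans (le_of_eq ?_)
    rw [← mul_assoc, one_div, inv_mul_cancel₀ hT.ne', one_mul]
  have h3 : qr F ^ i * ρ ^ (2 * i) = 1 := by
    rw [pow_mul, ← mul_pow, hρ2, one_pow]
  have h4 : ∑ ξ ∈ XiNT F N, ‖∑ f ∈ Mn F i, (dk k f : ℂ) * Hk r N χ ξ f‖ ^ 2 =
      qr F ^ i * ((∑ ξ ∈ XiNT F N, ‖∑ f ∈ Mn F i, (dk k f : ℂ) * Hk r N χ ξ f‖ ^ 2) *
        ρ ^ (2 * i)) := by
    rw [mul_comm (∑ ξ ∈ XiNT F N, _) (ρ ^ (2 * i)), ← mul_assoc, h3, one_mul]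
  rw [h4, mul_assoc]
  exact mul_le_mul_of_nonneg_left h2 (pow_nonneg hq.le i)

end Pool.Agent.Helper87.FC
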